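import Mathlib
import Pool.Agent.Helper12_TF.Asm
import Pool.Agent.Helper79_SDPP.OneSided

/-!
# A power saving for all families with the (one-sided) simultaneous double product property

From the squad's theorem `Pool.Agent.TF.asyS` (body of the frozen statement S08884) by tensor powers
on words of constant sum, and a dyadic pigeonhole.
-/

set_option autoImplicit false

open Finset
open scoped Pointwise

namespace Pool.Agent.Helper5_PS

/-- The squad's theorem, with `ε ≤ 1`. -/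
theorem excl : ∃ ε : ℝ, 0 < ε ∧ ε ≤ 1 ∧ ∃ N0 : ℕ, ∀ m : ℕ, N0 ≤ m →
    ∀ (G : Type) [AddCommGroup G] [Fintype G] (A B : Fin m → Set G),
      (m : ℝ) ^ (2 - ε) ≤ (Fintype.card G : ℝ) →
      (Fintype.card G : ℝ) ≤ (m : ℝ) ^ (2 + ε) →
      (∀ i, (m : ℝ) ^ (2 - ε) ≤ ((A i).ncard : ℝ) * ((B i).ncard : ℝ)) →
      (∀ i, (A i + B i).ncard = (A i).ncard * (B i).ncard) →
      (∀ i j k, i ≠ k → Disjoint (A i + B j) (A j + B k)) → False := by
  have h := Pool.Agent.TF.asyS
  unfold Pool.Agent.TF.AsyStmt at h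
  rw [not_forall] at h
  obtain ⟨ε, h⟩ := h
  rw [Classical.not_imp] at h
  obtain ⟨hε, h⟩ := h
  rw [not_forall] at h
  obtain ⟨N, h⟩ := h
  refine ⟨min ε 1, lt_min hε one_pos, min_le_right _ _, max N 1, ?_⟩
  intro m hm G _ _ A B h1 h2 h3 h4 h5
  apply h
  have hmN : N ≤ m := (le_max_left _ _).trans hm
  have hm1 : (1 : ℝ) ≤ m := by exact_mod_cast (le_max_right _ _).trans hm
  have he : min ε 1 ≤ ε := min_le_left _ _
  have e1 : (m : ℝ) ^ (2 - ε) ≤ (m : ℝ) ^ (2 - min ε 1) :=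
    Real.rpow_le_rpow_of_exponent_le hm1 (by linarith)
  have e2 : (m : ℝ) ^ (2 + min ε 1) ≤ (m : ℝ) ^ (2 + ε) :=
    Real.rpow_le_rpow_of_exponent_le hm1 (by linarith)
  exact ⟨m, hmN, G, inferInstance, inferInstance, A, B, e1.trans h1, h2.trans e2,
    fun i => ⟨e1.trans (h3 i), h4 i⟩, h5⟩

section two

variable {G : Type} [AddCommGroup G] [Fintype G] {m : ℕ} {A B : Fin m → Set G}

/-- The sum of the sizes of pairwise disjoint sets. -/
theorem sum_ncard_le (A : Fin m → Set G) (h : ∀ i k, i ≠ k → Disjoint (A i) (A k)) :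
    ∑ i, ((A i).ncard : ℝ) ≤ Fintype.card G := by
  classical
  have h1 : ∑ i, (A i).ncard ≤ Fintype.card G := by
    have h2 : ∀ i, (A i).ncard = (A i).toFinset.card := fun i => Set.ncard_eq_toFinset_card' _
    simp_rw [h2]
    rw [← Finset.card_biUnion]
    · exact Finset.card_le_univ _
    · intro i _ k _ hik
      exact Set.disjoint_toFinset.mpr (h i k hik)
  exact_mod_cast h1

/-- `m √τ ≤ |G|`. -/
theorem count (hd : ∀ i j k, i ≠ k → Disjoint (A i + B j) (A j + B k))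
    (τ : ℝ) (hτ : 0 < τ) (hs : ∀ i, τ ≤ ((A i).ncard : ℝ) * ((B i).ncard : ℝ)) :
    (m : ℝ) * Real.sqrt τ ≤ Fintype.card G := by
  have hA : ∀ i, (A i).Nonempty := by
    intro i
    rw [← Set.ncard_pos (Set.toFinite _)]
    rcases Nat.eq_zero_or_pos (A i).ncard with h | h
    · have := hs i; rw [h] at this; norm_num at this; linarith
    · exact h
  have hB : ∀ i, (B i).Nonempty := by
    intro i
    rw [← Set.ncard_pos (Set.toFinite _)]
    rcases Nat.eq_zero_or_pos (B i).ncard with h | h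
    · have := hs i; rw [h] at this; norm_num at this; linarith
    · exact h
  have dA : ∀ i k, i ≠ k → Disjoint (A i) (A k) := by
    intro i k hik
    rw [Set.disjoint_left]
    intro x hx hx'
    obtain ⟨b, hb⟩ := hB k
    exact (Set.disjoint_left.mp (hd i k k hik)) (Set.add_mem_add hx hb) (Set.add_mem_add hx' hb)
  have dB : ∀ i k, i ≠ k → Disjoint (B i) (B k) := by
    intro i k hik
    rw [Set.disjoint_left]
    intro x hx hx'
    obtain ⟨a, ha⟩ := hA i
    exact (Set.disjoint_left.mp (hd i i k hik)) (Set.add_mem_add ha hx) (Set.add_mem_add ha hx')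
  have h1 := sum_ncard_le A dA
  have h2 := sum_ncard_le B dB
  have h3 := Real.sum_sqrt_mul_sqrt_le (Finset.univ : Finset (Fin m))
    (f := fun i => ((A i).ncard : ℝ)) (g := fun i => ((B i).ncard : ℝ))
    (fun i => Nat.cast_nonneg _) (fun i => Nat.cast_nonneg _)
  have h4 : (m : ℝ) * Real.sqrt τ ≤ ∑ i, Real.sqrt ((A i).ncard : ℝ) * Real.sqrt ((B i).ncard : ℝ) := by
    calc (m : ℝ) * Real.sqrt τ = ∑ _i : Fin m, Real.sqrt τ := by simp
      _ ≤ _ := by
          apply Finset.sum_le_sum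
          intro i _
          rw [← Real.sqrt_mul (Nat.cast_nonneg _)]
          exact Real.sqrt_le_sqrt (hs i)
  have hg : (0 : ℝ) ≤ Fintype.card G := Nat.cast_nonneg _
  calc (m : ℝ) * Real.sqrt τ ≤ _ := h4
    _ ≤ _ := h3
    _ ≤ Real.sqrt (Fintype.card G) * Real.sqrt (Fintype.card G) :=
        mul_le_mul (Real.sqrt_le_sqrt h1) (Real.sqrt_le_sqrt h2) (Real.sqrt_nonneg _)
          (Real.sqrt_nonneg _)
    _ = _ := Real.mul_self_sqrt hg

end two

/-- Choice of the tensor power. -/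
theorem exists_M (n q N0 : ℕ) (hq : 2 ≤ q) (c : ℝ) (hc : 0 < c) :
    ∃ M : ℕ, 1 ≤ M ∧ Real.log (2 * ((n * M + 1) * (q * M + 1))) ≤ c * (M * Real.log q) ∧
      Real.log (N0 + 1) ≤ M * Real.log q / 4 := by
  have hq1 : (1 : ℝ) < q := by exact_mod_cast (by omega : 1 < q)
  have hlq : 0 < Real.log q := Real.log_pos hq1
  have hr : (1 : ℝ) < (q : ℝ) ^ c := Real.one_lt_rpow hq1 hc
  have ht := tendsto_pow_const_div_const_pow_of_one_lt 2 hr
  have ht2 : Filter.Tendsto (fun M : ℕ => (2 * (n + 1) * (q + 1) : ℝ) * ((M : ℝ) ^ 2 / ((q : ℝ) ^ c) ^ M))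
      Filter.atTop (nhds ((2 * (n + 1) * (q + 1) : ℝ) * 0)) := ht.const_mul _
  rw [mul_zero] at ht2
  have ev1 := ht2.eventually (gt_mem_nhds (show (0 : ℝ) < 1 by norm_num))
  have ev2 : ∀ᶠ M : ℕ in Filter.atTop, 1 ≤ M := Filter.eventually_ge_atTop 1
  have ev3 : ∀ᶠ M : ℕ in Filter.atTop, ⌈4 * Real.log (N0 + 1) / Real.log q⌉₊ ≤ M :=
    Filter.eventually_ge_atTop _
  obtain ⟨M, ⟨h1, h2⟩, h3⟩ := ((ev1.and ev2).and ev3).exists
  refine ⟨M, h2, ?_, ?_⟩
  · have hM1 : (1 : ℝ) ≤ M := by exact_mod_cast h2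
    have hrM : (0 : ℝ) < ((q : ℝ) ^ c) ^ M := pow_pos (by linarith) _
    have h4 : (2 * (n + 1) * (q + 1) : ℝ) * (M : ℝ) ^ 2 ≤ ((q : ℝ) ^ c) ^ M := by
      have := h1.le
      rw [← mul_div_assoc, div_le_one hrM] at this
      exact this
    have h5 : (2 * ((n * M + 1) * (q * M + 1)) : ℝ) ≤ (2 * (n + 1) * (q + 1) : ℝ) * (M : ℝ) ^ 2 := by
      have a1 : (n * M + 1 : ℝ) ≤ (n + 1) * M := by nlinarith
      have a2 : (q * M + 1 : ℝ) ≤ (q + 1) * M := by nlinarith
      have a3 : (0 : ℝ) ≤ q * M + 1 := by positivity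
      have a4 : (0 : ℝ) ≤ (n + 1) * M := by positivity
      have := mul_le_mul a1 a2 a3 a4
      nlinarith
    have h6 : (0 : ℝ) < 2 * ((n * M + 1) * (q * M + 1)) := by positivity
    calc Real.log (2 * ((n * M + 1) * (q * M + 1))) ≤ Real.log (((q : ℝ) ^ c) ^ M) :=
          Real.log_le_log h6 (h5.trans h4)
      _ = c * (M * Real.log q) := by
          rw [Real.log_pow, Real.log_rpow (by linarith)]; ring
  · have h5 : 4 * Real.log (N0 + 1) / Real.log q ≤ M := (Nat.le_ceil _).trans (by exact_mod_cast h3)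
    rw [div_le_iff₀ hlq] at h5
    linarith

end Pool.Agent.Helper5_PS
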