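import Pool.Agent.Helper5_PS.Main

/-!
# Power saving: assembly
-/

set_option autoImplicit false

open Finset
open scoped Pointwise

namespace Pool.Agent.Helper5_PS

/-- The trivial group. -/
theorem triv {n : ℕ} {H : Type} [AddCommGroup H] [Fintype H] (A B : Fin n → Set H)
    (hq : Fintype.card H = 1) (hd : ∀ i j k : Fin n, i < k → Disjoint (A i + B j) (A j + B k)) :
    ∑ i, ((A i).ncard : ℝ) * (B i).ncard ≤ 1 := by
  classical
  have hsub : Subsingleton H := (Fintype.card_le_one_iff_subsingleton).mp hq.le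
  have h0 : ∀ (S : Set H), S.ncard ≠ 0 → S = Set.univ := by
    intro S hS
    rcases S.eq_empty_or_nonempty with h | ⟨x, hx⟩
    · rw [h, Set.ncard_empty] at hS; exact absurd rfl hS
    · ext y
      simp only [Set.mem_univ, iff_true]
      rw [Subsingleton.elim y x]; exact hx
  have h1 : ∀ (S : Set H), S.ncard ≤ 1 := by
    intro S
    have := Set.ncard_le_card S
    rw [Nat.card_eq_fintype_card, hq] at this
    exact this
  have key : ∀ i k : Fin n, i < k → (A i).ncard * (B i).ncard ≠ 0 →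
      (A k).ncard * (B k).ncard ≠ 0 → False := by
    intro i k hik hi hk
    have a1 := h0 _ (left_ne_zero_of_mul hi)
    have a2 := h0 _ (right_ne_zero_of_mul hi)
    have a3 := h0 _ (right_ne_zero_of_mul hk)
    have := hd i i k hik
    rw [a1, a2, a3, disjoint_self, Set.bot_eq_empty] at this
    have h5 : (0 : H) + 0 ∈ (Set.univ : Set H) + Set.univ :=
      Set.add_mem_add (Set.mem_univ _) (Set.mem_univ _)
    rw [this] at h5
    exact h5
  by_cases hex : ∃ i, (A i).ncard * (B i).ncard ≠ 0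
  · obtain ⟨i, hi⟩ := hex
    rw [Finset.sum_eq_single i]
    · have e1 : ((A i).ncard : ℝ) ≤ 1 := by exact_mod_cast h1 _
      have e2 : ((B i).ncard : ℝ) ≤ 1 := by exact_mod_cast h1 _
      have e3 : (0 : ℝ) ≤ (B i).ncard := Nat.cast_nonneg _
      nlinarith
    · intro k _ hki
      by_contra hne
      have hk : (A k).ncard * (B k).ncard ≠ 0 := by
        intro h
        apply hne
        exact_mod_cast h
      rcases lt_or_gt_of_ne hki with h | h
      · exact key k i h hk hi
      · exact key i k h hi hk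
    · intro h; exact absurd (Finset.mem_univ i) h
  · push Not at hex
    have : ∑ i, ((A i).ncard : ℝ) * (B i).ncard = 0 := by
      apply Finset.sum_eq_zero
      intro i _
      exact_mod_cast hex i
    rw [this]; norm_num

/-- The main theorem. -/
theorem power_saving :
    ∃ c : ℝ, 0 < c ∧ ∀ (n : ℕ) (H : Type) [AddCommGroup H] [Fintype H] (A B : Fin n → Set H),
      (∀ i, (A i + B i).ncard = (A i).ncard * (B i).ncard) →
      (∀ i j k, i < k → Disjoint (A i + B j) (A j + B k)) →
      ∑ i, ((A i).ncard : ℝ) * (B i).ncard ≤ (Fintype.card H : ℝ) ^ (3 / 2 - c) := by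
  classical
  obtain ⟨ε, hε, hε1, N0, hN0⟩ := excl
  refine ⟨ε / 16, by positivity, ?_⟩
  intro n H _ _ A B hc hd
  have hqpos : 0 < Fintype.card H := Fintype.card_pos
  rcases Nat.lt_or_ge (Fintype.card H) 2 with hq1 | hq
  · have hq : Fintype.card H = 1 := by omega
    have := triv A B hq hd
    rw [hq]
    simpa using this
  by_contra hcon
  push Not at hcon
  set q : ℕ := Fintype.card H with hqdef
  have hqr : (1 : ℝ) < q := by exact_mod_cast (by omega : 1 < q)
  have hlq : 0 < Real.log q := Real.log_pos hqr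
  set s : Fin n → ℕ := fun i => (A i).ncard * (B i).ncard with hs
  set S : ℝ := ∑ i, (s i : ℝ) with hS
  have hS' : ∑ i, ((A i).ncard : ℝ) * (B i).ncard = S := by
    rw [hS]; apply Finset.sum_congr rfl; intro i _; rw [hs]; push_cast; rfl
  rw [hS'] at hcon
  have hqc : (0 : ℝ) < (q : ℝ) ^ (3 / 2 - ε / 16) := Real.rpow_pos_of_pos (by linarith) _
  have hS0 : 0 < S := hqc.trans hcon
  have hsq : ∀ i, s i ≤ q := by
    intro i
    rw [hs]
    simp only
    rw [← hc i, hqdef, ← Nat.card_eq_fintype_card]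
    exact Set.ncard_le_card _
  obtain ⟨M, hM1, hM2, hM3⟩ := exists_M n q N0 hq (ε / 16) (by positivity)
  obtain ⟨C, t, hC1, hC2, hC3, hC4⟩ := pigeon n M q s hsq (by omega) S hS hS0
  -- the family on `Fin M → H`
  set m : ℕ := C.card with hm
  let e : C ≃ Fin m := C.equivFin
  let A' : Fin m → Set (Fin M → H) := fun i => Set.univ.pi (fun c => A ((e.symm i).1 c))
  let B' : Fin m → Set (Fin M → H) := fun i => Set.univ.pi (fun c => B ((e.symm i).1 c))
  have hsize : ∀ i, (A' i).ncard * (B' i).ncard = ∏ c, s ((e.symm i).1 c) := by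
    intro i
    simp only [A', B']
    rw [Helper79_SDPP.ncard_pi, Helper79_SDPP.ncard_pi, ← Finset.prod_mul_distrib]
  have hdirect : ∀ i, (A' i + B' i).ncard = (A' i).ncard * (B' i).ncard := by
    intro i
    simp only [A', B']
    rw [Helper79_SDPP.pi_add_pi, Helper79_SDPP.ncard_pi, Helper79_SDPP.ncard_pi,
      Helper79_SDPP.ncard_pi, ← Finset.prod_mul_distrib]
    apply Finset.prod_congr rfl
    intro c _
    exact hc _
  have hdisj : ∀ i j k, i ≠ k → Disjoint (A' i + B' j) (A' j + B' k) := by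
    intro i j k hik
    have hne : (e.symm i).1 ≠ (e.symm k).1 := by
      intro h
      apply hik
      exact e.symm.injective (Subtype.ext h)
    obtain ⟨c, hlt⟩ := hC1 _ (e.symm i).2 _ (e.symm k).2 hne
    simp only [A', B']
    rw [Helper79_SDPP.pi_add_pi, Helper79_SDPP.pi_add_pi, Set.disjoint_left]
    intro x hx hx'
    rw [Set.mem_univ_pi] at hx hx'
    exact (Set.disjoint_left.mp (hd _ _ _ hlt)) (hx c) (hx' c)
  have hcardG : (Fintype.card (Fin M → H) : ℝ) = (q : ℝ) ^ M := by
    rw [Fintype.card_fun, Fintype.card_fin]; push_cast; rfl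
  have hm0 : (0 : ℝ) < m := by exact_mod_cast hC4
  have h2t : (0 : ℝ) < 2 ^ t := by positivity
  have hlow : ∀ i, (2 : ℝ) ^ t ≤ ((A' i).ncard : ℝ) * ((B' i).ncard : ℝ) := by
    intro i
    have h1 := hC2 _ (e.symm i).2
    rw [← hsize i] at h1
    exact_mod_cast h1
  have hcount := count (A := A') (B := B') hdisj ((2 : ℝ) ^ t) h2t hlow
  -- logarithms
  have hL : Real.log ((q : ℝ) ^ M) = M * Real.log q := by rw [Real.log_pow]
  have hg0 : (0 : ℝ) < (q : ℝ) ^ M := pow_pos (by linarith) _
  have ha : Real.log m + Real.log ((2 : ℝ) ^ t) / 2 ≤ M * Real.log q := by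
    rw [hcardG] at hcount
    have hsq0 : 0 < Real.sqrt ((2 : ℝ) ^ t) := Real.sqrt_pos.mpr h2t
    have := Real.log_le_log (mul_pos hm0 hsq0) hcount
    rw [Real.log_mul hm0.ne' hsq0.ne', Real.log_sqrt h2t.le, hL] at this
    exact this
  have hθ : Real.log ((2 : ℝ) ^ t) ≤ M * Real.log q := by
    have i0 : Fin m := ⟨0, hC4⟩
    have h1 : (2 : ℝ) ^ t ≤ (q : ℝ) ^ M := by
      have h3 : ((A' i0).ncard * (B' i0).ncard : ℕ) ≤ Fintype.card (Fin M → H) := by
        rw [← hdirect i0, ← Nat.card_eq_fintype_card]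
        exact Set.ncard_le_card _
      have h4 : ((A' i0).ncard : ℝ) * ((B' i0).ncard : ℝ) ≤ (Fintype.card (Fin M → H) : ℝ) := by
        exact_mod_cast h3
      rw [hcardG] at h4
      exact (hlow i0).trans h4
    have := Real.log_le_log h2t h1
    rwa [hL] at this
  have hb : (3 / 2 - ε / 16) * (M * Real.log q) ≤
      Real.log m + Real.log ((2 : ℝ) ^ t) + Real.log (2 * ((n * M + 1) * (q * M + 1))) := by
    have h1 : ((q : ℝ) ^ (3 / 2 - ε / 16)) ^ M ≤ S ^ M := pow_le_pow_left₀ hqc.le hcon.le M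
    have h2 := h1.trans hC3
    have h3 : (0 : ℝ) < 2 * ((n * M + 1) * (q * M + 1)) := by positivity
    have h4 : (m : ℝ) * 2 ^ (t + 1) * ((n * M + 1) * (q * M + 1)) =
        (m : ℝ) * 2 ^ t * (2 * ((n * M + 1) * (q * M + 1))) := by ring
    rw [h4] at h2
    have h5 := Real.log_le_log (pow_pos hqc M) h2
    rw [Real.log_mul (mul_pos hm0 h2t).ne' h3.ne', Real.log_mul hm0.ne' h2t.ne', Real.log_pow,
      Real.log_rpow (by linarith)] at h5
    linarith
  have hL0 : 0 ≤ (M : ℝ) * Real.log q := by positivity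
  obtain ⟨r1, r2, r3, r4⟩ := logs hε hε1 rfl hL0 ha hb hθ hM2
  have hpow : ∀ y : ℝ, (m : ℝ) ^ y = Real.exp (y * Real.log m) := by
    intro y; rw [Real.rpow_def_of_pos hm0, mul_comm]
  have hgexp : (q : ℝ) ^ M = Real.exp (M * Real.log q) := by rw [← hL, Real.exp_log hg0]
  have h2texp : (2 : ℝ) ^ t = Real.exp (Real.log ((2 : ℝ) ^ t)) := (Real.exp_log h2t).symm
  apply hN0 m _ (Fin M → H) A' B' _ _ _ hdirect hdisj
  · -- N0 ≤ m
    have h1 : Real.log (N0 + 1) ≤ Real.log m := by
      calc Real.log (N0 + 1) ≤ M * Real.log q / 4 := hM3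
        _ ≤ _ := r4
    have h2 : (N0 : ℝ) + 1 ≤ m := by
      have := Real.exp_le_exp.mpr h1
      rwa [Real.exp_log (by positivity), Real.exp_log hm0] at this
    have h3 : N0 + 1 ≤ m := by exact_mod_cast h2
    omega
  · rw [hcardG, hpow, hgexp]
    exact Real.exp_le_exp.mpr r1
  · rw [hcardG, hpow, hgexp]
    exact Real.exp_le_exp.mpr r2
  · intro i
    refine le_trans ?_ (hlow i)
    rw [hpow, h2texp]
    exact Real.exp_le_exp.mpr r3

end Pool.Agent.Helper5_PS
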