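import Pool.Agent.Helper5_PS.Core

/-!
# Power saving: main theorem
-/

set_option autoImplicit false

open Finset
open scoped Pointwise

namespace Pool.Agent.Helper5_PS

/-- Real inequalities in logarithms. -/
theorem logs {ε L μ θ κ c : ℝ} (hε : 0 < ε) (hε1 : ε ≤ 1) (hc : c = ε / 16) (hL : 0 ≤ L)
    (ha : μ + θ / 2 ≤ L) (hb : (3 / 2 - c) * L ≤ μ + θ + κ) (hθ : θ ≤ L) (hκ : κ ≤ c * L) :
    (2 - ε) * μ ≤ L ∧ L ≤ (2 + ε) * μ ∧ (2 - ε) * μ ≤ θ ∧ L / 4 ≤ μ := by
  have h1 : μ ≤ (1 / 2 + 2 * c) * L := by nlinarith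
  have h2 : (1 / 2 - 2 * c) * L ≤ μ := by nlinarith
  have h3 : (1 - 4 * c) * L ≤ θ := by nlinarith
  have h4 : 0 ≤ ε * L := by positivity
  have h5 : ε * (ε * L) ≤ ε * L := by nlinarith
  have h6 : 0 ≤ ε * (ε * L) := by positivity
  have h7 : (2 - ε) * μ ≤ (2 - ε) * ((1 / 2 + 2 * c) * L) :=
    mul_le_mul_of_nonneg_left h1 (by linarith)
  have h8 : (2 + ε) * ((1 / 2 - 2 * c) * L) ≤ (2 + ε) * μ :=
    mul_le_mul_of_nonneg_left h2 (by linarith)
  subst hc
  refine ⟨?_, ?_, ?_, ?_⟩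
  · nlinarith
  · nlinarith
  · nlinarith
  · nlinarith

/-- Words of constant sum and dyadic size. -/
theorem pigeon (n M q : ℕ) (s : Fin n → ℕ) (hs : ∀ i, s i ≤ q) (hq : 1 ≤ q) (S : ℝ)
    (hS : S = ∑ i, (s i : ℝ)) (hS0 : 0 < S) :
    ∃ (C : Finset (Fin M → Fin n)) (t : ℕ),
      (∀ u ∈ C, ∀ v ∈ C, u ≠ v → ∃ c, u c < v c) ∧
      (∀ u ∈ C, 2 ^ t ≤ ∏ c, s (u c)) ∧
      S ^ M ≤ (C.card : ℝ) * 2 ^ (t + 1) * ((n * M + 1) * (q * M + 1)) ∧ 0 < C.card := by
  classical
  set key : (Fin M → Fin n) → ℕ × ℕ := fun u => (∑ c, (u c : ℕ), Nat.log 2 (∏ c, s (u c))) with hkey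
  set W : Finset (Fin M → Fin n) := univ.filter (fun u => ∏ c, s (u c) ≠ 0) with hW
  set T : Finset (ℕ × ℕ) := (range (n * M + 1)) ×ˢ (range (q * M + 1)) with hT
  have hmaps : ∀ u ∈ W, key u ∈ T := by
    intro u hu
    rw [hT, Finset.mem_product]
    constructor
    · rw [Finset.mem_range, Nat.lt_succ_iff]
      calc ∑ c, (u c : ℕ) ≤ ∑ _c : Fin M, n := Finset.sum_le_sum (fun c _ => (u c).2.le)
        _ = n * M := by simp [mul_comm]
    · rw [Finset.mem_range, Nat.lt_succ_iff]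
      calc Nat.log 2 (∏ c, s (u c)) ≤ Nat.log 2 (2 ^ (q * M)) := by
            apply Nat.log_mono_right
            calc ∏ c, s (u c) ≤ ∏ _c : Fin M, q := Finset.prod_le_prod' (fun c _ => hs _)
              _ = q ^ M := by simp
              _ ≤ (2 ^ q) ^ M := Nat.pow_le_pow_left Nat.lt_two_pow_self.le M
              _ = 2 ^ (q * M) := by rw [← pow_mul]
        _ = q * M := Nat.log_pow (by norm_num) _
  have hsum : S ^ M = ∑ u ∈ W, ((∏ c, s (u c) : ℕ) : ℝ) := by
    rw [hS, Fintype.sum_pow, hW, Finset.sum_filter_of_ne]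
    · apply Finset.sum_congr rfl
      intro u _
      push_cast
      rfl
    · intro u _ h h0
      apply h
      rw [h0]; simp
  have hTcard : (T.card : ℝ) = (n * M + 1) * (q * M + 1) := by
    rw [hT, Finset.card_product, Finset.card_range, Finset.card_range]; push_cast; rfl
  have hT0 : (0 : ℝ) < T.card := by rw [hTcard]; positivity
  have hTne : T.Nonempty := by
    rw [← Finset.card_pos]; exact_mod_cast hT0
  obtain ⟨y, hy, hle⟩ := Finset.exists_le_sum_fiber_of_maps_to_of_nsmul_le_sum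
    (s := W) (t := T) (f := key) (w := fun u => ((∏ c, s (u c) : ℕ) : ℝ)) (b := S ^ M / T.card)
    hmaps hTne (by
      rw [← hsum, nsmul_eq_mul, mul_div_cancel₀]
      exact hT0.ne')
  refine ⟨W.filter (fun u => key u = y), y.2, ?_, ?_, ?_, ?_⟩
  · intro u hu v hv huv
    rw [Finset.mem_filter] at hu hv
    by_contra hcon
    push Not at hcon
    have h1 : ∑ c, (u c : ℕ) = ∑ c, (v c : ℕ) := by
      have a1 := congrArg Prod.fst hu.2
      have a2 := congrArg Prod.fst hv.2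
      simp only [hkey] at a1 a2
      rw [a1, a2]
    apply huv
    funext c
    have h2 : ∀ c ∈ (univ : Finset (Fin M)), (v c : ℕ) ≤ (u c : ℕ) := fun c _ => hcon c
    have h3 := (Finset.sum_eq_sum_iff_of_le h2).mp h1.symm c (Finset.mem_univ c)
    exact Fin.ext h3.symm
  · intro u hu
    rw [Finset.mem_filter] at hu
    have h2 := congrArg Prod.snd hu.2
    simp only [hkey] at h2
    rw [← h2]
    apply Nat.pow_log_le_self
    have := hu.1
    rw [hW, Finset.mem_filter] at this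
    exact this.2
  · have h1 : ∑ u ∈ W.filter (fun u => key u = y), ((∏ c, s (u c) : ℕ) : ℝ)
        ≤ ((W.filter (fun u => key u = y)).card : ℝ) * 2 ^ (y.2 + 1) := by
      rw [← nsmul_eq_mul]
      apply Finset.sum_le_card_nsmul
      intro u hu
      rw [Finset.mem_filter] at hu
      have h2 := congrArg Prod.snd hu.2
      simp only [hkey] at h2
      rw [← h2]
      have h3 := Nat.lt_pow_succ_log_self (b := 2) (by norm_num) (∏ c, s (u c))
      have h4 : ((∏ c, s (u c) : ℕ) : ℝ) ≤ ((2 ^ (Nat.log 2 (∏ c, s (u c))).succ : ℕ) : ℝ) := by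
        exact_mod_cast h3.le
      push_cast at h4
      push_cast
      exact h4
    have h2 := hle.trans h1
    rw [div_le_iff₀ hT0, hTcard] at h2
    exact h2
  · have h3 : 0 < S ^ M / T.card := div_pos (pow_pos hS0 M) hT0
    have h4 := lt_of_lt_of_le h3 hle
    rw [Finset.card_pos]
    by_contra hne
    rw [Finset.not_nonempty_iff_eq_empty] at hne
    rw [hne, Finset.sum_empty] at h4
    exact lt_irrefl _ h4

end Pool.Agent.Helper5_PS
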